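import Pool.Agent.H87.IS.Stmts
import Mathlib.RingTheory.Nullstellensatz

/-!
# Board `isq` (helper87), row KPT: there are no critical points except those with coordinates in `k`
-/

set_option autoImplicit false

namespace Pool.Agent.H87.IS

open MvPolynomial Pool.Agent.H39.MonoR Pool.Agent.H75.Mono Pool.Agent.H87.QF

namespace KPTAux

variable {k : Type} [Field k] {σ : Type}

/-- the ideal of the critical points -/
noncomputable def crI (f : MvPolynomial σ k) : Ideal (MvPolynomial σ k) :=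
  Ideal.span ({f} ∪ Set.range fun i => pderiv i f)

theorem mem_zl {K : Type} [Field K] [Algebra k K] (f : MvPolynomial σ k) (x : σ → K) :
    x ∈ zeroLocus K (crI f) ↔ aeval x f = 0 ∧ ∀ i, aeval x (pderiv i f) = 0 := by
  rw [crI, zeroLocus_span]
  constructor
  · intro h
    exact ⟨h f (Or.inl rfl), fun i => h _ (Or.inr ⟨i, rfl⟩)⟩
  · rintro ⟨h1, h2⟩ q (rfl | ⟨i, rfl⟩)
    · exact h1
    · exact h2 i

theorem mem_crit (f : MvPolynomial σ k) (x : σ → k) : x ∈ Crit f ↔ x ∈ zeroLocus k (crI f) := by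
  rw [mem_zl]
  rfl

theorem coord [Algebra k ℂ] [IsAlgClosed k] [Finite σ] (f : MvPolynomial σ k)
    (hf : (Crit f).Finite) (x : σ → ℂ) (hx : x ∈ zeroLocus ℂ (crI f)) (j : σ) :
    ∃ y : k, x j = algebraMap k ℂ y := by
  classical
  set g : MvPolynomial σ k := ∏ p ∈ hf.toFinset, (X j - C (p j)) with hg
  have h1 : g ∈ (crI f).radical := by
    rw [← vanishingIdeal_zeroLocus_eq_radical (K := k)]
    intro y hy
    rw [hg, map_prod]
    refine Finset.prod_eq_zero (i := y) ?_ ?_
    · rw [Set.Finite.mem_toFinset]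
      exact (mem_crit f y).2 hy
    · simp
  obtain ⟨e, he⟩ := h1
  have h2 : aeval x (g ^ e) = 0 := hx _ he
  rw [map_pow] at h2
  have h3 : aeval x g = 0 := eq_zero_of_pow_eq_zero h2
  rw [hg, map_prod, Finset.prod_eq_zero_iff] at h3
  obtain ⟨p, _, hp⟩ := h3
  refine ⟨p j, ?_⟩
  simpa [sub_eq_zero] using hp

end KPTAux

open KPTAux in
theorem KPT : KPTStmt := by
  intro k _ _ _ σ _ _ f hf x hx0 hx1
  have hx : x ∈ zeroLocus ℂ (crI f) := (mem_zl f x).2 ⟨hx0, hx1⟩
  choose y hy using coord f hf x hx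
  have hxy : x = fun i => algebraMap k ℂ (y i) := funext hy
  refine ⟨y, ?_, hy⟩
  have hinj : Function.Injective (algebraMap k ℂ) := (algebraMap k ℂ).injective
  have key : ∀ q : MvPolynomial σ k, aeval x q = 0 → eval y q = 0 := by
    intro q hq
    apply hinj
    rw [map_zero, ← hq, hxy]
    exact (aeval_algebraMap_apply ℂ y q).symm ▸ rfl
  exact ⟨key f hx0, fun i => key _ (hx1 i)⟩

end Pool.Agent.H87.IS
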